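import Pool.Graph.R_seed8.H353R7.G4
import Pool.Graph.R_pool_sql_team_seeded_3997aac3.Q286.GB.All

/-!
# The distances of Nyman, Beurling and Báez-Duarte for L-functions given by analytic data
-/

set_option autoImplicit false

open Complex MeasureTheory Filter Topology Set
open scoped ComplexConjugate ENNReal

namespace Pool.Agent.H290.NB

open Pool.Agent.Q286.GB

lemma prod_gr {m : ℕ} {μ : Fin m → ℂ} (hμ : ∀ j, (μ j).re < 1 / 2) {s : ℂ} (hs : 1 / 2 ≤ s.re) :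
    ∏ j, Gammaℝ (s - μ j) ≠ 0 := by
  refine Finset.prod_ne_zero_iff.2 fun j _ => ?_
  refine Gammaℝ_ne_zero_of_re_pos ?_
  have := hμ j
  rw [sub_re]
  linarith

/-- the object attached to the data of an `L`-function -/
theorem exists_obj {m : ℕ} {θ N : ℝ} {μ : Fin m → ℂ} {α : Fin m → ℕ → ℂ} {ε : ℂ} {Λ : ℂ → ℂ}
    (hθ : θ < 1 / 2) (hμ : ∀ j, (μ j).re < 1 / 2) (d : H353.F.DatumT θ N μ α ε Λ) :
    ∃ O : Obj, O.L = LL μ Λ ∧ O.X = (fun s => (N : ℂ) ^ (s / 2) * Λ s) ∧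
      ∀ s : ℂ, 2 ≤ s.re → HasSum (fun n : ℕ => O.lam n * (n : ℂ) ^ (-s))
        (∏' p : Nat.Primes, ∏ j, (1 - α j p * ((p : ℕ) : ℂ) ^ (-s))⁻¹) := by
  have hq : Summable (fun p : Nat.Primes => ((p : ℕ) : ℝ) ^ (-(3 / 2) : ℝ)) :=
    Nat.Primes.summable_rpow.2 (by norm_num)
  have hb : ∀ (p : Nat.Primes) (j : Fin m), ‖α j p‖ ≤ Real.sqrt ((p : ℕ) : ℝ) := by
    intro p j
    have hp1 : (1 : ℝ) ≤ ((p : ℕ) : ℝ) := by exact_mod_cast p.2.one_le
    refine (d.norm_le j p p.2).trans ?_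
    rw [Real.sqrt_eq_rpow]
    exact Real.rpow_le_rpow_of_exponent_le hp1 hθ.le
  obtain ⟨lam, mu, l0, m0, l1, ls, ms, inv, ser⟩ :=
    eul Nat.Primes m (fun p => (p : ℕ)) (fun p j => α j p) (fun p => p.2.two_le) hq hb
  have hLL : ∀ s : ℂ, 2 ≤ s.re → LL μ Λ s = ∏' p : Nat.Primes, ∏ j, (1 - α j p * ((p : ℕ) : ℂ) ^ (-s))⁻¹ := by
    intro s hs
    unfold LL
    rw [d.euler s (by linarith), mul_comm, ← mul_assoc, ← Finset.prod_mul_distrib]
    have h1 : ∏ j, (Gammaℝ (s - μ j))⁻¹ * Gammaℝ (s - μ j) = 1 := by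
      refine Finset.prod_eq_one fun j _ => ?_
      refine inv_mul_cancel₀ ?_
      refine Gammaℝ_ne_zero_of_re_pos ?_
      have := hμ j
      rw [sub_re]
      linarith
    rw [h1, one_mul]
  have hser : ∀ s : ℂ, 2 ≤ s.re → HasSum (fun n : ℕ => lam n * (n : ℂ) ^ (-s)) (LL μ Λ s) := by
    intro s hs
    rw [hLL s hs]
    exact ser s hs
  have hN0 : 0 < N := by linarith [d.one_le]
  have hstd : Std N μ Λ := by
    refine ⟨hN0, hμ, d.entire, ⟨ε, d.norm_eq, d.fe⟩, fun a b => ?_, ?_⟩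
    · obtain ⟨M, hM⟩ := d.bdd a b
      refine ⟨M, 1, fun s h1 h2 => ?_⟩
      rw [Real.rpow_one]
      exact hM s h1 h2
    · refine ⟨∑' n : ℕ, ‖lam n‖ * (n : ℝ) ^ (-2 : ℝ), fun s hs => ?_⟩
      rw [← (hser s hs).tsum_eq]
      refine tsum_of_norm_bounded ls.hasSum fun n => ?_
      rw [norm_mul]
      exact mul_le_mul_of_nonneg_left (norm_cpow_le n hs) (norm_nonneg _)
  obtain ⟨O, hL, hl, _, hX⟩ := obj m N μ Λ hstd lam mu l0 m0 l1 ls ms inv hser
  refine ⟨O, hL, hX, fun s hs => ?_⟩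
  rw [hl, ← hLL s hs]
  exact hser s hs

/-- the conclusions for every `L`-function given by analytic data -/
theorem concl_datum {m : ℕ} {θ N : ℝ} {μ : Fin m → ℂ} {α : Fin m → ℕ → ℂ} {ε : ℂ} {Λ : ℂ → ℂ}
    (hθ : θ < 1 / 2) (hμ : ∀ j, (μ j).re < 1 / 2) (d : H353.F.DatumT θ N μ α ε Λ) :
    ∃ lam : ℕ → ℂ, lam 0 = 0 ∧ (∀ s : ℂ, 2 ≤ s.re → HasSum (fun n : ℕ => lam n * (n : ℂ) ^ (-s))
        (∏' p : Nat.Primes, ∏ j, (1 - α j p * ((p : ℕ) : ℂ) ^ (-s))⁻¹)) ∧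
      Differentiable ℂ (LL μ Λ) ∧
      Concl (LL μ Λ) lam (fun s => (N : ℂ) ^ (s / 2) * Λ s) (1 / 2) := by
  obtain ⟨O, hL, hX, hs⟩ := exists_obj hθ hμ d
  refine ⟨O.lam, O.lam_zero, hs, hL ▸ O.entire, ?_⟩
  have h := concl facts O
  rw [hL, hX] at h
  exact h

/-- the constant with the first powers of the multiplicities -/
noncomputable def BB1 (X : ℂ → ℂ) (c : ℝ) : ℝ≥0∞ :=
  ∑' g : {g : ℝ // X (c + g * I) = 0},
    ENNReal.ofReal ((analyticOrderNatAt X (c + (g : ℝ) * I) : ℝ) / (1 / 4 + (g : ℝ) ^ 2))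

theorem BB1_le (X : ℂ → ℂ) (c : ℝ) : BB1 X c ≤ BB X c := by
  refine ENNReal.tsum_le_tsum fun g => ENNReal.ofReal_le_ofReal ?_
  refine div_le_div_of_nonneg_right ?_ (by positivity)
  have h : ((analyticOrderNatAt X (c + (g : ℝ) * I) : ℕ) : ℝ) ≤
      (((analyticOrderNatAt X (c + (g : ℝ) * I)) ^ 2 : ℕ) : ℝ) :=
    Nat.cast_le.2 (Nat.le_self_pow two_ne_zero _)
  push_cast at h
  exact h

/-- the two constants agree if and only if the orders of all the zeros on the line are at most one -/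
theorem BB_eq_iff {X : ℂ → ℂ} {c : ℝ} (hB : BB X c ≠ ⊤) :
    BB X c = BB1 X c ↔ ∀ g : ℝ, X (c + g * I) = 0 → analyticOrderNatAt X (c + g * I) ≤ 1 := by
  constructor
  · intro h
    by_contra hn
    push Not at hn
    obtain ⟨g, hg, h1⟩ := hn
    have hlt : BB1 X c < BB X c := by
      refine ENNReal.tsum_lt_tsum (i := ⟨g, hg⟩) (ne_top_of_le_ne_top hB (BB1_le X c)) (fun g' => ?_) ?_
      · refine ENNReal.ofReal_le_ofReal (div_le_div_of_nonneg_right ?_ (by positivity))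
        have h : ((analyticOrderNatAt X (c + (g' : ℝ) * I) : ℕ) : ℝ) ≤
            (((analyticOrderNatAt X (c + (g' : ℝ) * I)) ^ 2 : ℕ) : ℝ) :=
          Nat.cast_le.2 (Nat.le_self_pow two_ne_zero _)
        push_cast at h
        exact h
      · have h2 : (2 : ℝ) ≤ (analyticOrderNatAt X (c + (g : ℝ) * I) : ℝ) := by exact_mod_cast h1
        have hpos : 0 < 1 / 4 + g ^ 2 := by positivity
        refine (ENNReal.ofReal_lt_ofReal_iff ?_).2 ?_
        · show 0 < (analyticOrderNatAt X (c + (g : ℝ) * I) : ℝ) ^ 2 / (1 / 4 + g ^ 2)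
          positivity
        · show (analyticOrderNatAt X (c + (g : ℝ) * I) : ℝ) / (1 / 4 + g ^ 2) <
            (analyticOrderNatAt X (c + (g : ℝ) * I) : ℝ) ^ 2 / (1 / 4 + g ^ 2)
          refine div_lt_div_of_pos_right ?_ hpos
          nlinarith
    exact absurd h hlt.ne'
  · intro h
    unfold BB BB1
    refine tsum_congr fun g => ?_
    have h1 := h g g.2
    congr 2
    interval_cases hx : analyticOrderNatAt X (c + (g : ℝ) * I) <;> simp

/-- transport of the conclusion about simple zeros -/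
theorem Concl.simple {L : ℂ → ℂ} {lam : ℕ → ℂ} {X : ℂ → ℂ} {c : ℝ} (h : Concl L lam X c)
    (hr : ∀ s : ℂ, X s = 0 → s.re = c) :
    (Tendsto (fun N : ℕ => dd L c N * ENNReal.ofReal (Real.log N)) atTop (𝓝 (BB1 X c)) ↔
      ∀ g : ℝ, X (c + g * I) = 0 → analyticOrderNatAt X (c + g * I) ≤ 1) ∧
    (Tendsto (fun N : ℕ => ee lam N * ENNReal.ofReal (Real.log N)) atTop (𝓝 (BB1 X c)) ↔
      ∀ g : ℝ, X (c + g * I) = 0 → analyticOrderNatAt X (c + g * I) ≤ 1) := by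
  obtain ⟨h1, h2, h3⟩ := h.rh hr
  rw [← BB_eq_iff h1]
  refine ⟨⟨fun h4 => tendsto_nhds_unique h2 h4, fun h4 => h4 ▸ h2⟩,
    ⟨fun h4 => tendsto_nhds_unique h3 h4, fun h4 => h4 ▸ h3⟩⟩

/-- the sum over factorisations as a sum over dilations -/
theorem dil (lam : ℕ → ℂ) (h0 : lam 0 = 0) (a : ℕ → ℂ) (N M : ℕ) :
    ∑ k ∈ Finset.Icc 1 M, ∑ p ∈ k.divisorsAntidiagonal, (if p.1 ≤ N then a p.1 else 0) * lam p.2 =
      ∑ n ∈ Finset.Icc 1 N, a n * ∑ j ∈ Finset.Icc 1 (M / n), lam j := by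
  set fa : ArithmeticFunction ℂ := ⟨fun n => if n = 0 then 0 else if n ≤ N then a n else 0, by simp⟩ with hfa
  set fl : ArithmeticFunction ℂ := ⟨lam, h0⟩ with hfl
  have key := ArithmeticFunction.sum_Ioc_mul_eq_sum_sum fa fl M
  have e1 : ∀ K : ℕ, Finset.Ioc 0 K = Finset.Icc 1 K := fun K => by
    ext x
    simp [Finset.mem_Ioc, Finset.mem_Icc, Nat.succ_le_iff]
  simp only [e1] at key
  have h1 : ∑ k ∈ Finset.Icc 1 M, ∑ p ∈ k.divisorsAntidiagonal, (if p.1 ≤ N then a p.1 else 0) * lam p.2 =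
      ∑ k ∈ Finset.Icc 1 M, (fa * fl) k := by
    refine Finset.sum_congr rfl fun k _ => ?_
    rw [ArithmeticFunction.mul_apply]
    refine Finset.sum_congr rfl fun p hp => ?_
    have hp0 : p.1 ≠ 0 := (Nat.ne_zero_of_mem_divisorsAntidiagonal hp).1
    simp only [hfa, hfl, ArithmeticFunction.coe_mk, if_neg hp0]
  rw [h1, key]
  have h2 : ∀ n ∈ Finset.Icc 1 M, fa n * ∑ m ∈ Finset.Icc 1 (M / n), fl m =
      if n ≤ N then a n * ∑ j ∈ Finset.Icc 1 (M / n), lam j else 0 := by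
    intro n hn
    have hn0 : n ≠ 0 := by
      have := (Finset.mem_Icc.1 hn).1
      omega
    simp only [hfa, hfl, ArithmeticFunction.coe_mk, if_neg hn0]
    split_ifs <;> simp
  rw [Finset.sum_congr rfl h2, ← Finset.sum_filter]
  have h3 : (Finset.Icc 1 M).filter (fun n => n ≤ N) = (Finset.Icc 1 N).filter (fun n => n ≤ M) := by
    ext x
    simp only [Finset.mem_filter, Finset.mem_Icc]
    omega
  rw [h3, Finset.sum_filter]
  refine Finset.sum_congr rfl fun n hn => ?_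
  split_ifs with h
  · rfl
  · rw [Nat.div_eq_of_lt (by omega)]
    simp

end Pool.Agent.H290.NB
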